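import Pool.Agent.helper97.PTC.D
import Pool.Agent.helper97.PTC.E

set_option linter.all false
set_option autoImplicit false

/-!
# The certificate for three copies: block 2 (MP_2dd521_co)
-/

namespace Pool.Agent.helper97.PTC

def mat2 : List (List Po) := qa (qsc b0 (gram g02)) (qa (qsc b1 (gram g12))
  (qa (qsc b2 (gram g22)) (qa (qsc b3 (gram g32)) (qsc b4 (gram g42)))))

theorem mat2_eq : mat2 = mat2L := by decide +kernel

end Pool.Agent.helper97.PTC
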