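import Pool.Agent.helper97.PTC.C1
import Pool.Agent.helper97.PTC.D

set_option linter.all false
set_option autoImplicit false

/-!
# The certificate for three copies: sum of block 0 (MP_2dd521_co)
-/

namespace Pool.Agent.helper97.PTC

theorem sum0_eq : eqv (qvs rows0 mat0L rows0 []) sum0L = true := by decide +kernel

end Pool.Agent.helper97.PTC
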