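import Pool.Agent.helper97.PTC.C1
import Pool.Agent.helper97.PTC.M0
import Pool.Agent.helper97.PTC.M1
import Pool.Agent.helper97.PTC.M2
import Pool.Agent.helper97.PTC.T0
import Pool.Agent.helper97.PTC.T1
import Pool.Agent.helper97.PTC.T2

set_option linter.all false
set_option autoImplicit false

/-!
# The certificate for three copies (MP_2dd521_co, row pt:CE)
-/

namespace Pool.Agent.helper97.PTC

open MvPolynomial Pool.Agent.helper59.PT

def dl : Po := [0, 12, -21]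

/-- the identity `den * dl ^ 2 * HP = 144 * x ^ 2 * ∑ M_ij T (R_i, R_j)` modulo the symmetries -/
def chk : Bool := zr (col (sc (ps den (pm dl dl)) hpL) (col (sc [0, 0, -144] sum0L)
  (col (sc [0, 0, -144] sum1L) (col (sc [0, 0, -144] sum2L) []))))

theorem chk_true : chk = true := by decide +kernel

theorem qv_nonneg (Λ : Sy →ₗ[ℝ] ℝ) (x : ℝ) (hΛ : IsRing (cx x) Λ) (h0 : 0 ≤ x) (h1 : 4 * x ≤ 1)
    (L : List CR) (g0 g1 g2 g3 g4 : List (ℕ × List ℤ)) :
    0 ≤ qv Λ x L (qa (qsc b0 (gram g0)) (qa (qsc b1 (gram g1))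
      (qa (qsc b2 (gram g2)) (qa (qsc b3 (gram g3)) (qsc b4 (gram g4)))))) L := by
  have y0 : (0 : ℝ) ≤ 1 - 4 * x := by linarith
  have e0 : pe x b0 = (1 - 4 * x) ^ 4 := by simp only [b0, pe]; push_cast; ring
  have e1 : pe x b1 = 16 * x * (1 - 4 * x) ^ 3 := by simp only [b1, pe]; push_cast; ring
  have e2 : pe x b2 = 96 * x ^ 2 * (1 - 4 * x) ^ 2 := by simp only [b2, pe]; push_cast; ring
  have e3 : pe x b3 = 256 * x ^ 3 * (1 - 4 * x) := by simp only [b3, pe]; push_cast; ring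
  have e4 : pe x b4 = 256 * x ^ 4 := by simp only [b4, pe]; push_cast; ring
  simp only [qv_qa, qv_qsc, e0, e1, e2, e3, e4]
  have p0 := iv_gram_nonneg Λ x hΛ L g0
  have p1 := iv_gram_nonneg Λ x hΛ L g1
  have p2 := iv_gram_nonneg Λ x hΛ L g2
  have p3 := iv_gram_nonneg Λ x hΛ L g3
  have p4 := iv_gram_nonneg Λ x hΛ L g4
  have m0 := mul_nonneg (show 0 ≤ (1 - 4 * x) ^ 4 by positivity) p0
  have m1 := mul_nonneg (show 0 ≤ 16 * x * (1 - 4 * x) ^ 3 by positivity) p1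
  have m2 := mul_nonneg (show 0 ≤ 96 * x ^ 2 * (1 - 4 * x) ^ 2 by positivity) p2
  have m3 := mul_nonneg (show 0 ≤ 256 * x ^ 3 * (1 - 4 * x) by positivity) p3
  have m4 := mul_nonneg (show 0 ≤ 256 * x ^ 4 by positivity) p4
  linarith

theorem sum_ev {Λ : Sy →ₗ[ℝ] ℝ} (hΛ : Inv Λ) (x : ℝ) (L : List CR) (M : List (List Po)) (S : SP)
    (h : eqv (qvs L M L []) S = true) : Λ (sev x S) = qv Λ x L M L := by
  rw [← eqv_ev hΛ x _ _ h]
  simp only [qvs_ev hΛ, sev, map_zero, add_zero]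

/-- the certificate for `a = 3 / 4` -/
theorem ce : CE (3 / 4) := by
  intro r h0 h1 Λ hΛ
  obtain ⟨x, rfl⟩ : ∃ x : ℝ, r = 4 * x := ⟨r / 4, by ring⟩
  change IsRing (cx x) Λ at hΛ
  change 0 ≤ Λ (HP (cx x))
  have x0 : 0 < x := by linarith
  have hI : Inv Λ := ⟨hΛ.rot, hΛ.ref⟩
  have n0 : 0 ≤ Λ (sev x sum0L) := by
    rw [sum_ev hI x _ _ _ sum0_eq, ← mat0_eq]
    exact qv_nonneg Λ x hΛ x0.le h1.le rows0 g00 g10 g20 g30 g40
  have n1 : 0 ≤ Λ (sev x sum1L) := by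
    rw [sum_ev hI x _ _ _ sum1_eq, ← mat1_eq]
    exact qv_nonneg Λ x hΛ x0.le h1.le rows1 g01 g11 g21 g31 g41
  have n2 : 0 ≤ Λ (sev x sum2L) := by
    rw [sum_ev hI x _ _ _ sum2_eq, ← mat2_eq]
    exact qv_nonneg Λ x hΛ x0.le h1.le rows2 g02 g12 g22 g32 g42
  have key := congrArg Λ (sev_zr x _ chk_true)
  have kd : pe x dl = 3 * x * (4 - 7 * x) := by simp only [dl, pe]; push_cast; ring
  have k2 : pe x [0, 0, -144] = -(144 * x ^ 2) := by simp only [pe]; push_cast; ring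
  simp only [sev_col hI, sev_sc, lam_C_mul, pe_ps, pe_pm, hpL_ev hI, map_zero, kd, k2, sev,
    add_zero] at key
  have hd : (0 : ℝ) < (den : ℝ) := by
    have : (0 : ℤ) < den := by decide
    exact_mod_cast this
  have hp : (0 : ℝ) < den * (3 * x * (4 - 7 * x) * (3 * x * (4 - 7 * x))) := by
    have : (0 : ℝ) < 4 - 7 * x := by linarith
    positivity
  have hs : 0 ≤ 144 * x ^ 2 * (Λ (sev x sum0L) + (Λ (sev x sum1L) + Λ (sev x sum2L))) :=
    mul_nonneg (by positivity) (by linarith)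
  have hfin : (den * (3 * x * (4 - 7 * x) * (3 * x * (4 - 7 * x)))) * Λ (HP (cx x)) =
      144 * x ^ 2 * (Λ (sev x sum0L) + (Λ (sev x sum1L) + Λ (sev x sum2L))) := by linarith
  rw [← hfin] at hs
  exact nonneg_of_mul_nonneg_right hs hp

end Pool.Agent.helper97.PTC
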