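import Pool.Agent.helper97.PTC.E

set_option linter.all false
set_option autoImplicit false

/-!
# The certificate for three copies: the target (MP_2dd521_co)
-/

namespace Pool.Agent.helper97.PTC

open MvPolynomial Pool.Agent.helper59.PT

/-- equality modulo the symmetries -/
def eqv (A B : SP) : Bool := zr (col (sc [-1] B) (col A []))

theorem eqv_ev {Λ : Sy →ₗ[ℝ] ℝ} (hΛ : Inv Λ) (x : ℝ) (A B : SP) (h : eqv A B = true) :
    Λ (sev x A) = Λ (sev x B) := by
  have key := congrArg Λ (sev_zr x _ h)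
  have e : pe x [-1] = -1 := by simp [pe]
  simp only [sev_col hΛ, sev_sc, lam_C_mul, sev, map_zero, add_zero, e] at key
  linarith

/-- the sum over the first letter -/
def WO (u v : List (Fin 3)) : SP :=
  mrg (sm [(mY 0, [3]), (mY 1, [3]), (mY 2, [3])] (WHs u v)) (wdl (fun _ => [3]) (WHs u) (rm v))

theorem WO_ev (x : ℝ) (u v : List (Fin 3)) :
    sev x (WO u v) = ∑ i, WH (cx x) (i :: u) v := by
  have e3 : pe x [3] = 3 := by simp [pe]
  have hs : ∀ q : Fin 3, ∑ i, circ (cx x) i q = 3 := by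
    intro q
    fin_cases q <;> simp [circ, cx, cr, Fin.sum_univ_three] <;> ring_nf
  have h1 : ∀ q : Fin 3, (∑ i, (C (circ (cx x) i q) : Sy)) = C 3 := by
    intro q; rw [← map_sum, hs q]
  have hl : ∑ i : Fin 3, (∑ q, C (circ (cx x) i q) * X (Sum.inr q) : Sy) =
      C 3 * (X (Sum.inr 0) + X (Sum.inr 1) + X (Sum.inr 2)) := by
    rw [Finset.sum_comm]
    simp only [← Finset.sum_mul, h1, Fin.sum_univ_three]
    ring
  unfold WO
  rw [sev_mrg, sev_sm, sev_wdl]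
  simp only [WHs_ev, e3, sev, mY_ev, add_zero]
  have hr := sum_rm (R := Sy) v (fun _ w => C (3 : ℝ) * WH (cx x) u w)
  rw [← hr]
  have hw : ∀ i : Fin 3, WH (cx x) (i :: u) v =
      (∑ q, C (circ (cx x) i q) * X (Sum.inr q)) * WH (cx x) u v +
      ∑ k : Fin v.length, C (circ (cx x) i (v.get k)) * WH (cx x) u (v.eraseIdx k) := by
    intro i
    rfl
  simp only [hw]
  rw [Finset.sum_add_distrib, ← Finset.sum_mul, hl, Finset.sum_comm]
  simp only [← Finset.sum_mul, h1]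
  ring

def HPt : SP := col (sc perS (mrg (WO [0, 1] [0, 1, 2]) (mrg (WO [0, 2] [0, 1, 2])
  (WO [1, 2] [0, 1, 2])))) (col (sc (ps (-1) n9S) (WHs [0, 1, 2] [0, 1, 2])) [])

theorem HPt_ev {Λ : Sy →ₗ[ℝ] ℝ} (hΛ : Inv Λ) (x : ℝ) : Λ (sev x HPt) = Λ (HP (cx x)) := by
  simp only [HPt, sev_col hΛ, sev_sc, lam_C_mul, sev, map_zero, perS_ev, pe_ps, n9S_ev,
    sev_mrg, WO_ev, WHs_ev, HP, map_sub, P1, P2, Fin.sum_univ_three, map_add]
  push_cast
  ring

theorem chkHP : eqv HPt hpL = true := by decide +kernel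

theorem hpL_ev {Λ : Sy →ₗ[ℝ] ℝ} (hΛ : Inv Λ) (x : ℝ) : Λ (sev x hpL) = Λ (HP (cx x)) := by
  rw [← HPt_ev hΛ, eqv_ev hΛ x _ _ chkHP]

end Pool.Agent.helper97.PTC
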