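import Pool.Agent.helper59.PT.Spec

set_option linter.all false
set_option autoImplicit false

/-!
# Reflection for the certificate of the ring of three copies (MP_2dd521_co)

Polynomials in `x = r / 4` are lists of integers, symbols are lists of monomials with such
coefficients; words, products of rows and the final identity are computed with them.
-/

namespace Pool.Agent.helper97.PTC

open MvPolynomial Pool.Agent.helper59.PT

/-! ## polynomials in one variable -/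

abbrev Po := List ℤ

def pa : Po → Po → Po
  | [], q => q
  | a :: p, [] => a :: p
  | a :: p, b :: q => (a + b) :: pa p q

def ps (a : ℤ) : Po → Po
  | [] => []
  | b :: p => (a * b) :: ps a p

def pm : Po → Po → Po
  | [], _ => []
  | a :: p, q => pa (ps a q) (0 :: pm p q)

def pe (x : ℝ) : Po → ℝ
  | [] => 0
  | a :: p => (a : ℝ) + x * pe x p

theorem pe_pa (x : ℝ) : ∀ p q : Po, pe x (pa p q) = pe x p + pe x q
  | [], q => by simp [pa, pe]
  | a :: p, [] => by simp [pa, pe]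
  | a :: p, b :: q => by
    simp only [pa, pe, pe_pa x p q]; push_cast; ring

theorem pe_ps (x : ℝ) (a : ℤ) : ∀ p : Po, pe x (ps a p) = a * pe x p
  | [] => by simp [ps, pe]
  | b :: p => by simp only [ps, pe, pe_ps x a p]; push_cast; ring

theorem pe_pm (x : ℝ) : ∀ p q : Po, pe x (pm p q) = pe x p * pe x q
  | [], q => by simp [pm, pe]
  | a :: p, q => by
    simp only [pm, pe, pe_pa, pe_ps, pe_pm x p q]; push_cast; ring

/-! ## monomials -/

structure Mo where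
  a : ℕ
  b : ℕ
  c : ℕ
  d : ℕ
  e : ℕ
  f : ℕ

def Mo.mul (m n : Mo) : Mo :=
  ⟨m.a + n.a, m.b + n.b, m.c + n.c, m.d + n.d, m.e + n.e, m.f + n.f⟩

noncomputable def Mo.ev (m : Mo) : Sy :=
  X (Sum.inl 0) ^ m.a * X (Sum.inl 1) ^ m.b * X (Sum.inl 2) ^ m.c *
    X (Sum.inr 0) ^ m.d * X (Sum.inr 1) ^ m.e * X (Sum.inr 2) ^ m.f

theorem Mo.ev_mul (m n : Mo) : (m.mul n).ev = m.ev * n.ev := by
  simp only [Mo.mul, Mo.ev, pow_add]; ring

def Mo.beq (m n : Mo) : Bool :=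
  Nat.beq m.a n.a && (Nat.beq m.b n.b && (Nat.beq m.c n.c && (Nat.beq m.d n.d &&
    (Nat.beq m.e n.e && Nat.beq m.f n.f))))

theorem Mo.eq_of_beq (m n : Mo) (h : Mo.beq m n = true) : m = n := by
  simp only [Mo.beq, Bool.and_eq_true] at h
  obtain ⟨h1, h2, h3, h4, h5, h6⟩ := h
  cases m; cases n
  simp only [Mo.mk.injEq]
  exact ⟨Nat.eq_of_beq_eq_true h1, Nat.eq_of_beq_eq_true h2, Nat.eq_of_beq_eq_true h3,
    Nat.eq_of_beq_eq_true h4, Nat.eq_of_beq_eq_true h5, Nat.eq_of_beq_eq_true h6⟩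

def Mo.code (m : Mo) : ℕ := ((((m.a * 8 + m.b) * 8 + m.c) * 8 + m.d) * 8 + m.e) * 8 + m.f

def rotM (m : Mo) : Mo := ⟨m.c, m.a, m.b, m.f, m.d, m.e⟩

def thM (m : Mo) : Mo := ⟨m.f, m.e, m.d, m.c, m.b, m.a⟩

theorem rotM_ev (m : Mo) : (rotM m).ev = rename rotS m.ev := by
  simp only [rotM, Mo.ev, map_mul, map_pow, rename_X, rotS]
  have h0 : (2 : Fin 3) + 1 = 0 := rfl
  have h1 : (0 : Fin 3) + 1 = 1 := rfl
  have h2 : (1 : Fin 3) + 1 = 2 := rfl
  rw [h0, h1, h2]
  ring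

theorem thM_ev (m : Mo) : (thM m).ev = rename thS m.ev := by
  simp only [thM, Mo.ev, map_mul, map_pow, rename_X, thS]
  have h0 : (2 : Fin 3) - 0 = 2 := rfl
  have h1 : (2 : Fin 3) - 1 = 1 := rfl
  have h2 : (2 : Fin 3) - 2 = 0 := rfl
  rw [h0, h1, h2]
  ring

def pick (m n : Mo) : Mo := if Nat.ble m.code n.code then m else n

def canon (m : Mo) : Mo :=
  pick m (pick (rotM m) (pick (rotM (rotM m)) (pick (thM m) (pick (thM (rotM m))
    (thM (rotM (rotM m)))))))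

structure Inv (Λ : Sy →ₗ[ℝ] ℝ) : Prop where
  rot : ∀ A : Sy, Λ (rename rotS A) = Λ A
  ref : ∀ A : Sy, Λ (rename thS A) = Λ A

theorem pick_ev (Λ : Sy →ₗ[ℝ] ℝ) (m n : Mo) (z : ℝ) (h : Λ m.ev = z) (h' : Λ n.ev = z) :
    Λ (pick m n).ev = z := by
  unfold pick; split <;> assumption

theorem canon_ev {Λ : Sy →ₗ[ℝ] ℝ} (hΛ : Inv Λ) (m : Mo) : Λ (canon m).ev = Λ m.ev := by
  have r1 : Λ (rotM m).ev = Λ m.ev := by rw [rotM_ev, hΛ.rot]
  have r2 : Λ (rotM (rotM m)).ev = Λ m.ev := by rw [rotM_ev, hΛ.rot, r1]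
  unfold canon
  refine pick_ev _ _ _ _ rfl (pick_ev _ _ _ _ r1 (pick_ev _ _ _ _ r2 (pick_ev _ _ _ _ ?_
    (pick_ev _ _ _ _ ?_ ?_))))
  · rw [thM_ev, hΛ.ref]
  · rw [thM_ev, hΛ.ref, r1]
  · rw [thM_ev, hΛ.ref, r2]

/-! ## symbols -/

abbrev SP := List (Mo × Po)

noncomputable def sev (x : ℝ) : SP → Sy
  | [] => 0
  | t :: s => C (pe x t.2) * t.1.ev + sev x s

theorem sev_app (x : ℝ) : ∀ s u : SP, sev x (s ++ u) = sev x s + sev x u
  | [], u => by simp [sev]
  | t :: s, u => by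
    simp only [List.cons_append, sev, sev_app x s u]; ring

def s1 (t : Mo × Po) : SP → SP
  | [] => []
  | u :: s => (t.1.mul u.1, pm t.2 u.2) :: s1 t s

theorem sev_s1 (x : ℝ) (t : Mo × Po) : ∀ s : SP,
    sev x (s1 t s) = C (pe x t.2) * t.1.ev * sev x s
  | [] => by simp [s1, sev]
  | u :: s => by
    simp only [s1, sev, sev_s1 x t s, Mo.ev_mul, pe_pm, C_mul]; ring

/-- insertion with equal monomials merged -/
def ins (m : Mo) (p : Po) : SP → SP
  | [] => [(m, p)]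
  | t :: s => if Mo.beq t.1 m then (t.1, pa t.2 p) :: s else t :: ins m p s

theorem sev_ins (x : ℝ) (m : Mo) (p : Po) : ∀ s : SP,
    sev x (ins m p s) = C (pe x p) * m.ev + sev x s
  | [] => by simp [ins, sev]
  | t :: s => by
    unfold ins
    split
    · next h =>
      have := Mo.eq_of_beq _ _ h
      simp only [sev, pe_pa, C_add, this]; ring
    · simp only [sev, sev_ins x m p s]; ring

def mrg : SP → SP → SP
  | [], u => u
  | t :: s, u => mrg s (ins t.1 t.2 u)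

theorem sev_mrg (x : ℝ) : ∀ s u : SP, sev x (mrg s u) = sev x s + sev x u
  | [], u => by simp [mrg, sev]
  | t :: s, u => by
    simp only [mrg, sev, sev_mrg x s, sev_ins]; ring

def sm : SP → SP → SP
  | [], _ => []
  | t :: s, u => mrg (s1 t u) (sm s u)

theorem sev_sm (x : ℝ) : ∀ s u : SP, sev x (sm s u) = sev x s * sev x u
  | [], u => by simp [sm, sev]
  | t :: s, u => by
    simp only [sm, sev, sev_mrg, sev_s1, sev_sm x s u]; ring

def sc (p : Po) : SP → SP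
  | [] => []
  | u :: s => (u.1, pm p u.2) :: sc p s

theorem sev_sc (x : ℝ) (p : Po) : ∀ s : SP, sev x (sc p s) = C (pe x p) * sev x s
  | [] => by simp [sc, sev]
  | u :: s => by simp only [sc, sev, sev_sc x p s, pe_pm, C_mul]; ring

/-- merge modulo the symmetries -/
def col : SP → SP → SP
  | [], u => u
  | t :: s, u => col s (ins (canon t.1) t.2 u)

theorem lam_C_mul (Λ : Sy →ₗ[ℝ] ℝ) (z : ℝ) (A : Sy) : Λ (C z * A) = z * Λ A := by
  rw [C_mul', map_smul, smul_eq_mul]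

theorem sev_col {Λ : Sy →ₗ[ℝ] ℝ} (hΛ : Inv Λ) (x : ℝ) : ∀ s u : SP,
    Λ (sev x (col s u)) = Λ (sev x s) + Λ (sev x u)
  | [], u => by simp [col, sev]
  | t :: s, u => by
    simp only [col, sev, sev_col hΛ x s, sev_ins, map_add, lam_C_mul, canon_ev hΛ]; ring

def zr : SP → Bool
  | [] => true
  | t :: s => t.2.all (fun z => z == 0) && zr s

theorem pe_zero (x : ℝ) : ∀ p : Po, p.all (fun z => z == 0) = true → pe x p = 0
  | [], _ => rfl
  | a :: p, h => by
    simp only [List.all_cons, Bool.and_eq_true, beq_iff_eq] at h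
    simp [pe, h.1, pe_zero x p h.2]

theorem sev_zr (x : ℝ) : ∀ s : SP, zr s = true → sev x s = 0
  | [], _ => rfl
  | t :: s, h => by
    simp only [zr, Bool.and_eq_true] at h
    simp [sev, pe_zero x t.2 h.1, sev_zr x s h.2]

/-! ## words -/

def rm {n : ℕ} : List (Fin n) → List (Fin n × List (Fin n))
  | [] => []
  | a :: l => (a, l) :: (rm l).map fun t => (t.1, a :: t.2)

theorem sum_rm {R : Type} [AddCommMonoid R] {n : ℕ} : ∀ (v : List (Fin n))
    (f : Fin n → List (Fin n) → R),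
    ∑ k : Fin v.length, f (v.get k) (v.eraseIdx k) = ((rm v).map fun t => f t.1 t.2).sum
  | [], f => by simp [rm]
  | a :: l, f => by
    have h := sum_rm l (fun b u => f b (a :: u))
    simp only [rm, List.map_cons, List.sum_cons, List.map_map, Function.comp_def]
    rw [← h]
    simp only [List.length_cons]
    rw [Fin.sum_univ_succ]
    simp

def wdl {n : ℕ} (M : Fin n → Po) (W : List (Fin n) → SP) : List (Fin n × List (Fin n)) → SP
  | [] => []
  | t :: l => mrg (sc (M t.1) (W t.2)) (wdl M W l)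

theorem sev_wdl {n : ℕ} (x : ℝ) (M : Fin n → Po) (W : List (Fin n) → SP) :
    ∀ l : List (Fin n × List (Fin n)),
    sev x (wdl M W l) = (l.map fun t => C (pe x (M t.1)) * sev x (W t.2)).sum
  | [] => by simp [wdl, sev]
  | t :: l => by
    simp only [wdl, sev_mrg, sev_sc, sev_wdl x M W l, List.map_cons, List.sum_cons]

def prs {n : ℕ} (r : Fin n → SP) : List (Fin n) → SP
  | [] => [(⟨0, 0, 0, 0, 0, 0⟩, [1])]
  | a :: l => sm (r a) (prs r l)

theorem sev_prs {n : ℕ} (x : ℝ) (r : Fin n → SP) : ∀ l : List (Fin n),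
    sev x (prs r l) = (l.map fun a => sev x (r a)).prod
  | [] => by simp [prs, sev, pe, Mo.ev]
  | a :: l => by simp only [prs, sev_sm, sev_prs x r l, List.map_cons, List.prod_cons]

def wds {n : ℕ} (M : Fin n → Fin n → Po) (l r : Fin n → SP) :
    List (Fin n) → List (Fin n) → SP
  | [], v => prs r v
  | i :: u, v => mrg (sm (l i) (wds M l r u v)) (wdl (M i) (wds M l r u) (rm v))

theorem sev_wds {n : ℕ} (x : ℝ) (M : Fin n → Fin n → Po) (l r : Fin n → SP) :
    ∀ u v : List (Fin n), sev x (wds M l r u v) =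
      Wd (fun i j => C (pe x (M i j))) (fun i => sev x (l i)) (fun i => sev x (r i)) u v
  | [], v => by simp only [wds, Wd, sev_prs]
  | i :: u, v => by
    simp only [wds, Wd, sev_mrg, sev_sm, sev_wdl, sev_wds x M l r u]
    rw [sum_rm v (fun b w => C (pe x (M i b)) *
      Wd (fun i j => C (pe x (M i j))) (fun i => sev x (l i)) (fun i => sev x (r i)) u w)]

/-! ## the ring at `r = 4 x` -/

def c0 : Po := [1, 5]
def c1 : Po := [1, -1]
def c2 : Po := [1, -4]

/-- the circulant as polynomials in `x` -/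
def cs : Fin 3 → Po := ![c0, c1, c2]

noncomputable def cx (x : ℝ) : Fin 3 → ℝ := cr (3 / 4) (4 * x)

theorem cs_ev (x : ℝ) (i : Fin 3) : pe x (cs i) = cx x i := by
  fin_cases i <;> simp [cs, cx, cr, pe, c0, c1, c2] <;> ring

def mX (i : Fin 3) : Mo := match i with
  | 0 => ⟨1, 0, 0, 0, 0, 0⟩
  | 1 => ⟨0, 1, 0, 0, 0, 0⟩
  | 2 => ⟨0, 0, 1, 0, 0, 0⟩

def mY (i : Fin 3) : Mo := match i with
  | 0 => ⟨0, 0, 0, 1, 0, 0⟩
  | 1 => ⟨0, 0, 0, 0, 1, 0⟩
  | 2 => ⟨0, 0, 0, 0, 0, 1⟩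

theorem mX_ev (i : Fin 3) : (mX i).ev = X (Sum.inl i) := by
  fin_cases i <;> simp [mX, Mo.ev]

theorem mY_ev (i : Fin 3) : (mY i).ev = X (Sum.inr i) := by
  fin_cases i <;> simp [mY, Mo.ev]

def WHs : List (Fin 3) → List (Fin 3) → SP :=
  wds (fun p q => cs (q - p))
    (fun p => [(mY 0, cs (0 - p)), (mY 1, cs (1 - p)), (mY 2, cs (2 - p))])
    (fun q => [(mX 0, cs (q - 0)), (mX 1, cs (q - 1)), (mX 2, cs (q - 2))])

theorem WHs_ev (x : ℝ) (u v : List (Fin 3)) : sev x (WHs u v) = WH (cx x) u v := by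
  unfold WHs WH
  rw [sev_wds]
  have e1 : (fun i j : Fin 3 => (C (pe x (cs (j - i))) : Sy)) =
      fun p q => C (circ (cx x) p q) := by
    funext p q; rw [cs_ev]; rfl
  have e2 : (fun p : Fin 3 =>
      sev x [(mY 0, cs (0 - p)), (mY 1, cs (1 - p)), (mY 2, cs (2 - p))]) =
      fun p => ∑ q, C (circ (cx x) p q) * X (Sum.inr q) := by
    funext p
    simp only [sev, cs_ev, mY_ev, Fin.sum_univ_three, circ, add_zero]; ring
  have e3 : (fun q : Fin 3 =>
      sev x [(mX 0, cs (q - 0)), (mX 1, cs (q - 1)), (mX 2, cs (q - 2))]) =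
      fun q => ∑ p, C (circ (cx x) p q) * X (Sum.inl p) := by
    funext p
    simp only [sev, cs_ev, mX_ev, Fin.sum_univ_three, circ, add_zero]; ring
  rw [e1, e2, e3]

def Ms : Fin 3 → Fin 3 → Po := ![![c0, c2, []], ![c2, c1, []], ![[], [], c2]]

theorem Ms_ev (x : ℝ) (i j : Fin 3) : pe x (Ms i j) = Mc (cx x) i j := by
  fin_cases i <;> fin_cases j <;>
    simp [Ms, Mc, cx, cr, pe, c0, c1, c2] <;> ring

def WTs : List (Fin 3) → List (Fin 3) → SP :=
  wds Ms
    ![[(mX 1, c0), (mX 2, c2)], [(mX 1, c2), (mX 2, c1)], [(mY 2, c2)]]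
    ![[(mY 1, c0), (mY 0, c2)], [(mY 1, c2), (mY 0, c1)], [(mX 0, c2)]]

theorem c0_ev (x : ℝ) : pe x c0 = cx x 0 := cs_ev x 0
theorem c1_ev (x : ℝ) : pe x c1 = cx x 1 := cs_ev x 1
theorem c2_ev (x : ℝ) : pe x c2 = cx x 2 := cs_ev x 2

theorem WTs_ev (x : ℝ) (u v : List (Fin 3)) : sev x (WTs u v) = WT (cx x) u v := by
  unfold WTs WT
  rw [sev_wds]
  have e1 : (fun i j : Fin 3 => (C (pe x (Ms i j)) : Sy)) =
      fun p q => C (Mc (cx x) p q) := by
    funext p q; rw [Ms_ev]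
  have e2 : (fun i : Fin 3 => sev x
      ((![[(mX 1, c0), (mX 2, c2)], [(mX 1, c2), (mX 2, c1)], [(mY 2, c2)]] : Fin 3 → SP) i)) =
      fun i => ∑ j, C (Mc (cx x) i j) * X (ltS j) := by
    funext p
    fin_cases p <;>
      simp [sev, c0_ev, c1_ev, c2_ev, mX_ev, mY_ev, Fin.sum_univ_three, Mc, ltS]
  have e3 : (fun i : Fin 3 => sev x
      ((![[(mY 1, c0), (mY 0, c2)], [(mY 1, c2), (mY 0, c1)], [(mX 0, c2)]] : Fin 3 → SP) i)) =
      fun j => ∑ i, C (Mc (cx x) i j) * X (thS (ltS i)) := by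
    have t1 : (2 : Fin 3) - 1 = 1 := rfl
    have t2 : (2 : Fin 3) - 2 = 0 := rfl
    funext p
    fin_cases p <;>
      simp [sev, c0_ev, c1_ev, c2_ev, mX_ev, mY_ev, Fin.sum_univ_three, Mc, ltS, thS, t1, t2]
  rw [e1, e2, e3]

/-! ## rows -/

structure Rw where
  w : List (Fin 3)
  p : ℕ
  q : ℕ
  s : ℕ

noncomputable def Rw.pol (i : Rw) : MvPolynomial (Fin 3) ℝ :=
  X 0 ^ i.p * X 1 ^ i.q * X 2 ^ i.s

def tij (i j : Rw) : SP := s1 (⟨i.s, j.p, j.q, i.q, i.p, j.s⟩, [1]) (WTs i.w j.w)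

theorem tij_ev (x : ℝ) (i j : Rw) : sev x (tij i j) =
    rename thS (rename ltS i.pol) * rename ltS j.pol * WT (cx x) i.w j.w := by
  have t1 : (2 : Fin 3) - 1 = 1 := rfl
  have t2 : (2 : Fin 3) - 2 = 0 := rfl
  have a0 : ltS 0 = Sum.inl 1 := rfl
  have a1 : ltS 1 = Sum.inl 2 := rfl
  have a2 : ltS 2 = Sum.inr 2 := rfl
  unfold tij Rw.pol
  rw [sev_s1, WTs_ev]
  simp only [map_mul, map_pow, rename_X, a0, a1, a2, thS, t1, t2, Mo.ev, pe]
  simp only [Int.cast_one, mul_zero, add_zero, C_1, one_mul]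
  ring

/-- combinations of rows -/
abbrev CR := List (Rw × Po)

def tg1 (t : Rw × Po) : CR → SP
  | [] => []
  | u :: s => mrg (sc (pm t.2 u.2) (tij t.1 u.1)) (tg1 t s)

def tg : CR → CR → SP
  | [], _ => []
  | t :: s, u => mrg (tg1 t u) (tg s u)

/-- the polynomial of a pair of rows with coefficients -/
noncomputable def tt (x : ℝ) (t u : Rw × Po) : Sy :=
  rename thS (rename ltS (C (pe x t.2) * t.1.pol)) * rename ltS (C (pe x u.2) * u.1.pol) *
    WT (cx x) t.1.w u.1.w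

theorem tt_eq (x : ℝ) (t u : Rw × Po) :
    tt x t u = C (pe x t.2 * pe x u.2) * sev x (tij t.1 u.1) := by
  unfold tt
  rw [tij_ev]
  simp only [map_mul, rename_C]
  ring

theorem sev_tg1 (x : ℝ) (t : Rw × Po) : ∀ s : CR,
    sev x (tg1 t s) = (s.map fun u => tt x t u).sum
  | [] => by simp [tg1, sev]
  | u :: s => by
    simp only [tg1, sev_mrg, sev_sc, pe_pm, sev_tg1 x t s, List.map_cons, List.sum_cons, tt_eq]

theorem sev_tg (x : ℝ) (u : CR) : ∀ s : CR,
    sev x (tg s u) = (s.map fun t => (u.map fun u => tt x t u).sum).sum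
  | [] => by simp [tg, sev]
  | t :: s => by
    simp only [tg, sev_mrg, sev_tg1, sev_tg x u s, List.map_cons, List.sum_cons]

/-- the form -/
noncomputable def bf (Λ : Sy →ₗ[ℝ] ℝ) (x : ℝ) (A B : CR) : ℝ := Λ (sev x (tg A B))

theorem bf_nonneg (Λ : Sy →ₗ[ℝ] ℝ) (x : ℝ) (hΛ : IsRing (cx x) Λ) (A : CR) :
    0 ≤ bf Λ x A A := by
  have h := hΛ.pos A.length (fun i => (A.get i).1.w)
    (fun i => C (pe x (A.get i).2) * (A.get i).1.pol)
  have e : (∑ i : Fin A.length, ∑ j : Fin A.length,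
      rename thS (rename ltS (C (pe x (A.get i).2) * (A.get i).1.pol)) *
        rename ltS (C (pe x (A.get j).2) * (A.get j).1.pol) *
        WT (cx x) (A.get i).1.w (A.get j).1.w) = sev x (tg A A) := by
    rw [sev_tg]
    have f1 : ∀ t : Rw × Po, (∑ j : Fin A.length, tt x t (A.get j)) =
        (A.map fun u => tt x t u).sum := fun t => Fin.sum_univ_fun_getElem A (fun u => tt x t u)
    have f2 := Fin.sum_univ_fun_getElem A (fun t => (A.map fun u => tt x t u).sum)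
    rw [← f2]
    refine Finset.sum_congr rfl fun i _ => ?_
    exact f1 (A.get i)
  rw [e] at h
  exact h

/-! ### bilinearity -/

def csc (z : ℤ) : CR → CR
  | [] => []
  | t :: s => (t.1, ps z t.2) :: csc z s

theorem tt_smul_left (x : ℝ) (z : ℤ) (t u : Rw × Po) :
    tt x (t.1, ps z t.2) u = C (z : ℝ) * tt x t u := by
  simp only [tt_eq, pe_ps, C_mul]; ring

theorem tt_smul_right (x : ℝ) (z : ℤ) (t u : Rw × Po) :
    tt x t (u.1, ps z u.2) = C (z : ℝ) * tt x t u := by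
  simp only [tt_eq, pe_ps, C_mul]; ring

theorem sum_csc (z : ℤ) (f : Rw × Po → Sy) (h : ∀ t : Rw × Po, f (t.1, ps z t.2) = C (z : ℝ) * f t) :
    ∀ A : CR, ((csc z A).map f).sum = C (z : ℝ) * (A.map f).sum
  | [] => by simp [csc]
  | t :: s => by
    simp only [csc, List.map_cons, List.sum_cons, sum_csc z f h s, h]; ring

theorem bf_csc_left (Λ : Sy →ₗ[ℝ] ℝ) (x : ℝ) (z : ℤ) (A B : CR) :
    bf Λ x (csc z A) B = z * bf Λ x A B := by
  unfold bf
  rw [sev_tg, sev_tg, sum_csc z, lam_C_mul]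
  intro t
  have h := List.sum_map_mul_left (R := Sy) (l := B) (f := fun u => tt x t u) (r := C (z : ℝ))
  rw [← h]
  simp only [tt_smul_left]

theorem bf_csc_right (Λ : Sy →ₗ[ℝ] ℝ) (x : ℝ) (z : ℤ) (A B : CR) :
    bf Λ x A (csc z B) = z * bf Λ x A B := by
  unfold bf
  have h := List.sum_map_mul_left (R := Sy) (l := A) (f := fun t => (B.map fun u => tt x t u).sum) (r := C (z : ℝ))
  rw [sev_tg, sev_tg, ← lam_C_mul, ← h]
  congr 2
  refine List.map_congr_left fun t _ => ?_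
  rw [sum_csc z]
  intro u
  exact tt_smul_right x z t u

theorem bf_app_left (Λ : Sy →ₗ[ℝ] ℝ) (x : ℝ) (A A' B : CR) :
    bf Λ x (A ++ A') B = bf Λ x A B + bf Λ x A' B := by
  unfold bf
  simp only [sev_tg, List.map_append, List.sum_append, map_add]

theorem bf_app_right (Λ : Sy →ₗ[ℝ] ℝ) (x : ℝ) (A B B' : CR) :
    bf Λ x A (B ++ B') = bf Λ x A B + bf Λ x A B' := by
  unfold bf
  simp only [sev_tg, List.map_append, List.sum_append, List.sum_map_add, map_add]

theorem bf_nil_left (Λ : Sy →ₗ[ℝ] ℝ) (x : ℝ) (B : CR) : bf Λ x [] B = 0 := by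
  simp [bf, tg, sev]

theorem bf_nil_right (Λ : Sy →ₗ[ℝ] ℝ) (x : ℝ) (A : CR) : bf Λ x A [] = 0 := by
  unfold bf
  rw [sev_tg]
  simp

/-- combination of the rows `L` with integer coefficients `v` -/
def comb : List ℤ → List CR → CR
  | [], _ => []
  | _ :: _, [] => []
  | z :: v, A :: L => csc z A ++ comb v L

/-- `∑ j, v_j * bf A L_j` -/
noncomputable def rv (Λ : Sy →ₗ[ℝ] ℝ) (x : ℝ) (A : CR) : List ℤ → List CR → ℝ
  | [], _ => 0
  | _ :: _, [] => 0
  | z :: v, B :: L => z * bf Λ x A B + rv Λ x A v L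

theorem rv_comb (Λ : Sy →ₗ[ℝ] ℝ) (x : ℝ) (A : CR) : ∀ (v : List ℤ) (L : List CR),
    rv Λ x A v L = bf Λ x A (comb v L)
  | [], _ => by simp [rv, comb, bf_nil_right]
  | _ :: _, [] => by simp [rv, comb, bf_nil_right]
  | z :: v, B :: L => by
    simp only [rv, comb, bf_app_right, bf_csc_right, rv_comb Λ x A v L]

/-- matrix with integer entries -/
noncomputable def iv (Λ : Sy →ₗ[ℝ] ℝ) (x : ℝ) (L' : List CR) : List (List ℤ) → List CR → ℝ
  | [], _ => 0
  | _ :: _, [] => 0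
  | g :: G, A :: L => rv Λ x A g L' + iv Λ x L' G L

def outr (a : ℤ) : List ℤ → List ℤ
  | [] => []
  | b :: v => (a * b) :: outr a v

def outer (v' : List ℤ) : List ℤ → List (List ℤ)
  | [] => []
  | a :: v => outr a v' :: outer v' v

theorem rv_outr (Λ : Sy →ₗ[ℝ] ℝ) (x : ℝ) (A : CR) (a : ℤ) : ∀ (v : List ℤ) (L : List CR),
    rv Λ x A (outr a v) L = a * rv Λ x A v L
  | [], L => by simp [outr, rv]
  | b :: v, [] => by simp [outr, rv]
  | b :: v, B :: L => by
    simp only [outr, rv, rv_outr Λ x A a v L]; push_cast; ring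

theorem iv_outer (Λ : Sy →ₗ[ℝ] ℝ) (x : ℝ) (v' : List ℤ) (L' : List CR) :
    ∀ (v : List ℤ) (L : List CR),
    iv Λ x L' (outer v' v) L = bf Λ x (comb v L) (comb v' L')
  | [], L => by simp [outer, iv, comb, bf_nil_left]
  | a :: v, [] => by simp [outer, iv, comb, bf_nil_left]
  | a :: v, B :: L => by
    simp only [outer, iv, iv_outer Λ x v' L' v L, rv_outr]
    simp only [rv_comb, comb, bf_app_left, bf_csc_left]

/-- addition of matrices with integer entries -/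
def ia : List (List ℤ) → List (List ℤ) → List (List ℤ)
  | [], H => H
  | g :: G, [] => g :: G
  | g :: G, h :: H => pa g h :: ia G H

theorem rv_pa (Λ : Sy →ₗ[ℝ] ℝ) (x : ℝ) (A : CR) : ∀ (v u : List ℤ) (L : List CR),
    rv Λ x A (pa v u) L = rv Λ x A v L + rv Λ x A u L
  | [], u, L => by simp [pa, rv]
  | a :: v, [], L => by simp [pa, rv]
  | a :: v, b :: u, [] => by simp [pa, rv]
  | a :: v, b :: u, B :: L => by
    simp only [pa, rv, rv_pa Λ x A v u L]; push_cast; ring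

theorem iv_ia (Λ : Sy →ₗ[ℝ] ℝ) (x : ℝ) (L' : List CR) : ∀ (G H : List (List ℤ)) (L : List CR),
    iv Λ x L' (ia G H) L = iv Λ x L' G L + iv Λ x L' H L
  | [], H, L => by simp [ia, iv]
  | g :: G, [], L => by simp [ia, iv]
  | g :: G, h :: H, [] => by simp [ia, iv]
  | g :: G, h :: H, B :: L => by
    simp only [ia, iv, iv_ia Λ x L' G H L, rv_pa]; ring

/-- the matrix `∑ d v v^T` -/
def gram : List (ℕ × List ℤ) → List (List ℤ)
  | [] => []
  | t :: g => ia (outer t.2 (outr t.1 t.2)) (gram g)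

theorem iv_gram_nonneg (Λ : Sy →ₗ[ℝ] ℝ) (x : ℝ) (hΛ : IsRing (cx x) Λ) (L : List CR) :
    ∀ g : List (ℕ × List ℤ), 0 ≤ iv Λ x L (gram g) L
  | [] => by simp [gram, iv]
  | t :: g => by
    have h1 := iv_gram_nonneg Λ x hΛ L g
    have h2 : ∀ (a : ℤ) (v : List ℤ) (L : List CR) (B : CR),
        bf Λ x (comb (outr a v) L) B = a * bf Λ x (comb v L) B := by
      intro a v
      induction v with
      | nil => intro L B; simp [outr, comb, bf_nil_left]
      | cons b v ih =>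
        intro L B
        cases L with
        | nil => simp [outr, comb, bf_nil_left]
        | cons A L =>
          simp only [outr, comb, bf_app_left, bf_csc_left, ih]; push_cast; ring
    simp only [gram, iv_ia, iv_outer, h2]
    have h3 := bf_nonneg Λ x hΛ (comb t.2 L)
    have h4 : (0 : ℝ) ≤ ((t.1 : ℤ) : ℝ) := by positivity
    have := mul_nonneg h4 h3
    linarith

/-! ### matrices with polynomial entries -/

noncomputable def pv (Λ : Sy →ₗ[ℝ] ℝ) (x : ℝ) (A : CR) : List Po → List CR → ℝ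
  | [], _ => 0
  | _ :: _, [] => 0
  | z :: v, B :: L => pe x z * bf Λ x A B + pv Λ x A v L

noncomputable def qv (Λ : Sy →ₗ[ℝ] ℝ) (x : ℝ) (L' : List CR) : List (List Po) → List CR → ℝ
  | [], _ => 0
  | _ :: _, [] => 0
  | g :: G, A :: L => pv Λ x A g L' + qv Λ x L' G L

def ra : List Po → List Po → List Po
  | [], H => H
  | g :: G, [] => g :: G
  | g :: G, h :: H => pa g h :: ra G H

def qa : List (List Po) → List (List Po) → List (List Po)
  | [], H => H
  | g :: G, [] => g :: G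
  | g :: G, h :: H => ra g h :: qa G H

theorem pv_ra (Λ : Sy →ₗ[ℝ] ℝ) (x : ℝ) (A : CR) : ∀ (v u : List Po) (L : List CR),
    pv Λ x A (ra v u) L = pv Λ x A v L + pv Λ x A u L
  | [], u, L => by simp [ra, pv]
  | a :: v, [], L => by simp [ra, pv]
  | a :: v, b :: u, [] => by simp [ra, pv]
  | a :: v, b :: u, B :: L => by
    simp only [ra, pv, pv_ra Λ x A v u L, pe_pa]; ring

theorem qv_qa (Λ : Sy →ₗ[ℝ] ℝ) (x : ℝ) (L' : List CR) : ∀ (G H : List (List Po)) (L : List CR),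
    qv Λ x L' (qa G H) L = qv Λ x L' G L + qv Λ x L' H L
  | [], H, L => by simp [qa, qv]
  | g :: G, [], L => by simp [qa, qv]
  | g :: G, h :: H, [] => by simp [qa, qv]
  | g :: G, h :: H, B :: L => by
    simp only [qa, qv, qv_qa Λ x L' G H L, pv_ra]; ring

def rsc (b : Po) : List ℤ → List Po
  | [] => []
  | z :: v => ps z b :: rsc b v

def qsc (b : Po) : List (List ℤ) → List (List Po)
  | [] => []
  | g :: G => rsc b g :: qsc b G

theorem pv_rsc (Λ : Sy →ₗ[ℝ] ℝ) (x : ℝ) (A : CR) (b : Po) : ∀ (v : List ℤ) (L : List CR),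
    pv Λ x A (rsc b v) L = pe x b * rv Λ x A v L
  | [], L => by simp [rsc, pv, rv]
  | a :: v, [] => by simp [rsc, pv, rv]
  | a :: v, B :: L => by
    simp only [rsc, pv, rv, pv_rsc Λ x A b v L, pe_ps]; ring

theorem qv_qsc (Λ : Sy →ₗ[ℝ] ℝ) (x : ℝ) (L' : List CR) (b : Po) :
    ∀ (G : List (List ℤ)) (L : List CR), qv Λ x L' (qsc b G) L = pe x b * iv Λ x L' G L
  | [], L => by simp [qsc, qv, iv]
  | g :: G, [] => by simp [qsc, qv, iv]
  | g :: G, B :: L => by
    simp only [qsc, qv, iv, qv_qsc Λ x L' b G L, pv_rsc]; ring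

/-- computation of `qv` -/
def pvs (A : CR) : List Po → List CR → SP → SP
  | [], _, u => u
  | _ :: _, [], u => u
  | z :: v, B :: L, u => pvs A v L (col (sc z (col (tg A B) [])) u)

def qvs (L' : List CR) : List (List Po) → List CR → SP → SP
  | [], _, u => u
  | _ :: _, [], u => u
  | g :: G, A :: L, u => qvs L' G L (pvs A g L' u)

theorem pvs_ev {Λ : Sy →ₗ[ℝ] ℝ} (hΛ : Inv Λ) (x : ℝ) (A : CR) :
    ∀ (v : List Po) (L : List CR) (u : SP),
    Λ (sev x (pvs A v L u)) = pv Λ x A v L + Λ (sev x u)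
  | [], _, u => by simp [pvs, pv]
  | _ :: _, [], u => by simp [pvs, pv]
  | z :: v, B :: L, u => by
    simp only [pvs, pv, pvs_ev hΛ x A v L, sev_col hΛ, sev_sc, lam_C_mul, sev, map_zero, bf]
    ring

theorem qvs_ev {Λ : Sy →ₗ[ℝ] ℝ} (hΛ : Inv Λ) (x : ℝ) (L' : List CR) :
    ∀ (G : List (List Po)) (L : List CR) (u : SP),
    Λ (sev x (qvs L' G L u)) = qv Λ x L' G L + Λ (sev x u)
  | [], _, u => by simp [qvs, qv]
  | _ :: _, [], u => by simp [qvs, qv]
  | g :: G, A :: L, u => by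
    simp only [qvs, qv, qvs_ev hΛ x L' G L, pvs_ev hΛ]; ring

/-! ### the target -/

def perS : Po := pa (pm c0 (pm c0 c0)) (pa (pm c1 (pm c1 c1)) (pa (pm c2 (pm c2 c2))
  (ps 3 (pm c0 (pm c1 c2)))))

def n9S : Po := ps 9 (pa (pm c0 c0) (pa (pm c1 c1) (pa (pm c2 c2) (pa (pm c0 c1)
  (pa (pm c0 c2) (pm c1 c2))))))

def P1s : SP :=
  mrg (WHs [0, 0, 1] [0, 1, 2]) (mrg (WHs [0, 0, 2] [0, 1, 2]) (mrg (WHs [0, 1, 2] [0, 1, 2])
  (mrg (WHs [1, 0, 1] [0, 1, 2]) (mrg (WHs [1, 0, 2] [0, 1, 2]) (mrg (WHs [1, 1, 2] [0, 1, 2])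
  (mrg (WHs [2, 0, 1] [0, 1, 2]) (mrg (WHs [2, 0, 2] [0, 1, 2]) (WHs [2, 1, 2] [0, 1, 2]))))))))

def HPs : SP := col (sc perS P1s) (col (sc (ps (-1) n9S) (WHs [0, 1, 2] [0, 1, 2])) [])

theorem perS_ev (x : ℝ) : pe x perS = perc (cx x) := by
  simp only [perS, pe_pa, pe_pm, pe_ps, c0_ev, c1_ev, c2_ev, perc]
  push_cast; ring

theorem n9S_ev (x : ℝ) : pe x n9S = n9 (cx x) := by
  simp only [n9S, pe_pa, pe_pm, pe_ps, c0_ev, c1_ev, c2_ev, n9]
  push_cast; ring

theorem HPs_ev {Λ : Sy →ₗ[ℝ] ℝ} (hΛ : Inv Λ) (x : ℝ) : Λ (sev x HPs) = Λ (HP (cx x)) := by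
  simp only [HPs, sev_col hΛ, sev_sc, lam_C_mul, sev, map_zero, perS_ev, pe_ps, n9S_ev, P1s,
    sev_mrg, WHs_ev, HP, map_sub, P1, P2, Fin.sum_univ_three, map_add]
  push_cast
  ring

end Pool.Agent.helper97.PTC
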